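import Pool.Agent.Helper65.EV.St

/-!
# Project EV, module DI: a chain which is never the parent
-/

set_option autoImplicit false

open Set Filter
open scoped ENNReal Topology

namespace Pool.Agent.Helper67.EV

open Pool.Agent.Helper65.EV Pool.Agent.Helper84.Eve

/-- the lists with large hazard -/
private theorem part_A (h1 : hSURV) (h2 : WM) (w : Finset ℕ → ℝ≥0∞) (n : ℕ) (ρ : ℕ → ℝ≥0∞)
    (hw : ∑ κ ∈ (Finset.range n).powerset, w κ ≤ 1)
    (hρ : ∀ a, ρ a ≤ by
      classical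
      exact ∑ κ ∈ (Finset.range n).powerset.filter (fun κ : Finset ℕ => IsLeast (κ : Set ℕ) a), w κ)
    (m a : ℕ) (H : ℝ≥0∞) (hH : H ≠ 0) (hH' : H ≠ ∞) :
    wsum w n m ({l | nrep l a ∧ H / 2 ≤ haz ρ l a}.indicator 1) ≤ 2 / H := by
  have e1 : (H / 2) * wsum w n m ({l | nrep l a ∧ H / 2 ≤ haz ρ l a}.indicator 1) ≤ 1 := by
    refine (h2.markov w n m {l | nrep l a ∧ H / 2 ≤ haz ρ l a} (H / 2)
      ({l | nrep l a}.indicator fun l => 1 + haz ρ l a) ?_).trans ?_
    · intro l _ hl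
      rw [indicator_of_mem (show l ∈ {l | nrep l a} from hl.1)]
      exact hl.2.trans le_add_self
    · refine h1 w n ρ hw ?_ m a
      intro a
      convert hρ a
  have h3 : H / 2 ≠ 0 := by
    simp only [ne_eq, ENNReal.div_eq_zero_iff, not_or]
    exact ⟨hH, ENNReal.ofNat_ne_top⟩
  have h4 : H / 2 ≠ ∞ := ENNReal.div_ne_top hH' two_ne_zero
  have h5 : wsum w n m ({l | nrep l a ∧ H / 2 ≤ haz ρ l a}.indicator 1) ≤ 1 / (H / 2) := by
    rw [ENNReal.le_div_iff_mul_le (Or.inl h3) (Or.inl h4), mul_comm]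
    exact e1
  refine h5.trans (le_of_eq ?_)
  rw [one_div, ENNReal.inv_div (Or.inl ENNReal.ofNat_ne_top) (Or.inl two_ne_zero)]

/-- the lists with small hazard -/
private theorem part_B (h2 : WM) (h3 : hHZ) (w : Finset ℕ → ℝ≥0∞) (n : ℕ) (ρ : ℕ → ℝ≥0∞)
    (hw : ∑ κ ∈ (Finset.range n).powerset, w κ ≤ 1) (hρ1 : ∀ a, ρ a ≤ 1) (ha : Antitone ρ)
    (M : ℕ → ℕ) (hM : Monotone M) (hM0 : M 0 = 0) (b : ℕ → ℕ) (J a : ℕ) (ε : ℝ≥0∞)
    (hε : ∀ j < J, wsum w n (M (j + 1)) ({l | b j < posl l a}.indicator 1) ≤ ε)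
    (S : ℝ≥0∞) (hS0 : S ≠ 0)
    (hS : S = ∑ j ∈ Finset.range J, ((M (j + 1) - M j : ℕ) : ℝ≥0∞) * ρ (b j)) :
    wsum w n (M J) ({l | haz ρ l a < S / 2}.indicator 1) ≤ 2 * ε := by
  have hSt : S ≠ ∞ := by
    rw [hS]
    refine (ENNReal.sum_lt_top.mpr fun j _ => ?_).ne
    exact ENNReal.mul_lt_top (ENNReal.natCast_lt_top _) ((hρ1 _).trans_lt ENNReal.one_lt_top)
  have hS2 : S / 2 ≠ 0 := by
    simp only [ne_eq, ENNReal.div_eq_zero_iff, not_or]
    exact ⟨hS0, ENNReal.ofNat_ne_top⟩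
  have hS2t : S / 2 ≠ ∞ := ENNReal.div_ne_top hSt two_ne_zero
  have e1 : (S / 2) * wsum w n (M J) ({l | haz ρ l a < S / 2}.indicator 1) ≤ S * ε := by
    refine (h2.markov w n (M J) {l | haz ρ l a < S / 2} (S / 2)
      (fun l => ∑ j ∈ Finset.range J, (((M (j + 1) - M j : ℕ) : ℝ≥0∞) * ρ (b j)) *
        ({l | b j < posl l a}.indicator 1 (l.take (M (j + 1))) : ℝ≥0∞)) ?_).trans ?_
    · intro l hl hl'
      have k1 := h3 ρ ha M hM hM0 b J a l hl.ge
      have k2 : haz ρ l a < S / 2 := hl'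
      have k3 : S = ∑ j ∈ Finset.range J, ((M (j + 1) - M j : ℕ) : ℝ≥0∞) *
          (if posl (l.take (M (j + 1))) a ≤ b j then ρ (b j) else 0) +
          ∑ j ∈ Finset.range J, (((M (j + 1) - M j : ℕ) : ℝ≥0∞) * ρ (b j)) *
            ({l | b j < posl l a}.indicator 1 (l.take (M (j + 1))) : ℝ≥0∞) := by
        rw [hS, ← Finset.sum_add_distrib]
        refine Finset.sum_congr rfl fun j _ => ?_
        by_cases hj : posl (l.take (M (j + 1))) a ≤ b j
        · rw [if_pos hj, indicator_of_notMem (show l.take (M (j + 1)) ∉ {l | b j < posl l a} from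
            not_lt.mpr hj), mul_zero, add_zero]
        · rw [if_neg hj, indicator_of_mem (show l.take (M (j + 1)) ∈ {l | b j < posl l a} from
            not_le.mp hj), mul_zero, zero_add, Pi.one_apply, mul_one]
      by_contra hcon
      rw [not_le] at hcon
      have k4 : S < S / 2 + S / 2 := by
        conv_lhs => rw [k3]
        exact ENNReal.add_lt_add (k1.trans_lt k2) hcon
      rw [ENNReal.add_halves] at k4
      exact lt_irrefl _ k4
    · rw [wsum_sum]
      have k1 : S * ε = ∑ j ∈ Finset.range J, (((M (j + 1) - M j : ℕ) : ℝ≥0∞) * ρ (b j)) * ε := by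
        rw [hS, Finset.sum_mul]
      rw [k1]
      refine Finset.sum_le_sum fun j hj => ?_
      refine mul_le_mul' le_rfl ?_
      have hj' : j < J := Finset.mem_range.mp hj
      have k2 : M (j + 1) + (M J - M (j + 1)) = M J := Nat.add_sub_cancel' (hM hj')
      have k3 := h2.take_le w n hw (M (j + 1)) (M J - M (j + 1)) ({l | b j < posl l a}.indicator 1)
      rw [k2] at k3
      exact k3.trans (hε j hj')
  have e2 : wsum w n (M J) ({l | haz ρ l a < S / 2}.indicator 1) ≤ S * ε / (S / 2) := by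
    rw [ENNReal.le_div_iff_mul_le (Or.inl hS2) (Or.inl hS2t), mul_comm]
    exact e1
  refine e2.trans (le_of_eq ?_)
  have e3 : S * ε = (2 * ε) * (S / 2) := by
    have k1 : (2 : ℝ≥0∞) * (S / 2) = S := ENNReal.mul_div_cancel two_ne_zero ENNReal.ofNat_ne_top
    calc S * ε = (2 * (S / 2)) * ε := by rw [k1]
      _ = (2 * ε) * (S / 2) := by ring
  rw [e3, ENNReal.mul_div_cancel_right hS2 hS2t]

/-- MODULE DI. -/
theorem hDI (h1 : hSURV) (h2 : WM) (h3 : hHZ) : hDI := by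
  classical
  intro w n ρ hw hρ ha M hM hM0 b J a ε hε H hH hHS
  have hρ1 : ∀ a, ρ a ≤ 1 := fun a =>
    (hρ a).trans ((Finset.sum_le_sum_of_subset (Finset.filter_subset _ _)).trans hw)
  set S : ℝ≥0∞ := ∑ j ∈ Finset.range J, ((M (j + 1) - M j : ℕ) : ℝ≥0∞) * ρ (b j) with hSdef
  have hS0 : S ≠ 0 := fun h => hH (le_antisymm (h ▸ hHS) zero_le)
  have hSt : S ≠ ∞ := by
    rw [hSdef]
    refine (ENNReal.sum_lt_top.mpr fun j _ => ?_).ne
    exact ENNReal.mul_lt_top (ENNReal.natCast_lt_top _) ((hρ1 _).trans_lt ENNReal.one_lt_top)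
  have hHt : H ≠ ∞ := (hHS.trans_lt (lt_top_iff_ne_top.mpr hSt)).ne
  have e1 := part_A h1 h2 w n ρ hw (fun a => by convert hρ a) (M J) a H hH hHt
  have e2 := part_B h2 h3 w n ρ hw hρ1 ha M hM hM0 b J a ε hε S hS0 hSdef
  calc wsum w n (M J) ({l | nrep l a}.indicator 1)
      ≤ wsum w n (M J) (fun l => ({l | haz ρ l a < S / 2}.indicator 1 l : ℝ≥0∞) +
          ({l | nrep l a ∧ H / 2 ≤ haz ρ l a}.indicator 1 l : ℝ≥0∞)) := by
        refine h2.mono w n (M J) _ _ fun l _ => ?_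
        by_cases hl : nrep l a
        · rw [indicator_of_mem (show l ∈ {l | nrep l a} from hl)]
          by_cases hl2 : haz ρ l a < S / 2
          · rw [indicator_of_mem (show l ∈ {l | haz ρ l a < S / 2} from hl2)]
            exact le_self_add
          · rw [indicator_of_mem (show l ∈ {l | nrep l a ∧ H / 2 ≤ haz ρ l a} from
              ⟨hl, (ENNReal.div_le_div_right hHS 2).trans (not_lt.mp hl2)⟩)]
            exact le_add_self
        · rw [indicator_of_notMem (show l ∉ {l | nrep l a} from hl)]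
          exact zero_le
    _ = wsum w n (M J) ({l | haz ρ l a < S / 2}.indicator 1) +
          wsum w n (M J) ({l | nrep l a ∧ H / 2 ≤ haz ρ l a}.indicator 1) := by
        rw [wsum_add]
    _ ≤ 2 * ε + 2 / H := add_le_add e2 e1

end Pool.Agent.Helper67.EV
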